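import Pool.Agent.Helper69.VX.St

/-!
# Project VX (MP_e12aa9_pr): module PIW, pivotal absent edges at one vertex
-/

set_option autoImplicit false

namespace Pool.Agent.Helper40.VX

open Finset Filter Pool.Agent.Helper82.CN Pool.Agent.Helper11.PV Pool.Agent.Helper69.VX

lemma gr_mono {V : Type} [DecidableEq V] (e : Sym2 V) (ω : Sym2 V → Bool) :
    gr (Function.update ω e false) ≤ gr (Function.update ω e true) := by
  intro u v h
  obtain ⟨huv, h2⟩ := h
  refine ⟨huv, ?_⟩
  by_cases hs : s(u, v) = e
  · rw [hs, Function.update_self]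
  · rw [Function.update_of_ne hs] at h2 ⊢
    exact h2

lemma gr_adj {V : Type} [DecidableEq V] (e : Sym2 V) (ω : Sym2 V → Bool) (u v : V)
    (h : (gr (Function.update ω e true)).Adj u v) :
    (gr (Function.update ω e false)).Adj u v ∨ s(u, v) = e := by
  obtain ⟨huv, h2⟩ := h
  by_cases hs : s(u, v) = e
  · exact Or.inr hs
  · left
    refine ⟨huv, ?_⟩
    rw [Function.update_of_ne hs] at h2 ⊢
    exact h2

lemma dd_cases {V : Type} [Fintype V] [DecidableEq V] (hPHB : StPHB) (l : ℕ) (e : Sym2 V)
    (ω : Sym2 V → Bool) :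
    (Ph l (gr (Function.update ω e true)) = Ph l (gr (Function.update ω e false)) ∧
      DD (PH l) e ω = 0) ∨
    (Ph l (gr (Function.update ω e true)) = Ph l (gr (Function.update ω e false)) + 1 ∧
      DD (PH l) e ω = 1) := by
  obtain ⟨-, h2, h3, -⟩ := hPHB V l
  have hle := h2 _ _ (gr_mono e ω)
  have hle' : Ph l (gr (Function.update ω e true)) ≤
      Ph l (gr (Function.update ω e false)) + 1 := by
    induction e using Sym2.ind with
    | _ x y =>
      refine h3 _ _ x fun u v h => ?_
      rcases gr_adj s(x, y) ω u v h with h4 | h4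
      · exact Or.inl h4
      · rcases Sym2.eq_iff.1 h4 with ⟨h5, -⟩ | ⟨-, h5⟩
        · exact Or.inr (Or.inl h5)
        · exact Or.inr (Or.inr h5)
  unfold DD PH
  rcases hle.eq_or_lt with h | h
  · left
    refine ⟨h.symm, ?_⟩
    rw [h, sub_self]
  · right
    have h5 : Ph l (gr (Function.update ω e true)) =
        Ph l (gr (Function.update ω e false)) + 1 := by omega
    refine ⟨h5, ?_⟩
    rw [h5]
    push_cast
    ring

theorem hPIW : StPHB → StPIV → StPIW := by
  classical
  intro hPHB _ V _ _ l ω a w ha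
  -- an optimal pair
  have hne : {m | ∃ (U : Finset V) (k : ℕ), PC (gr ω) U k ∧ m = l * k + U.card}.Nonempty := by
    refine ⟨_, Finset.univ, 0, ⟨fun _ => 0, ?_, ?_⟩, rfl⟩
    · intro v hv
      exact absurd (Finset.mem_univ v) hv
    · intro u v hu
      exact absurd (Finset.mem_univ u) hu
  obtain ⟨U, k, ⟨c, hc1, hc2⟩, hm⟩ := Nat.sInf_mem hne
  have hPh : Ph l (gr ω) = l * k + U.card := hm
  obtain ⟨E, hE⟩ : ∃ E : Finset V, E = Finset.univ.filter
    (fun v : V => ω s(v, w) = false ∧ DD (PH l) s(v, w) ω = 1) := ⟨_, rfl⟩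
  have hkey : ∀ v ∈ E, v ∉ U ∧ w ∉ U ∧ c v = c w := by
    intro v hv
    rw [hE, Finset.mem_filter] at hv
    obtain ⟨-, he0, he1⟩ := hv
    have hf : Function.update ω s(v, w) false = ω := by
      rw [← he0]
      exact Function.update_eq_self _ ω
    rcases dd_cases hPHB l s(v, w) ω with h | h
    · rw [h.2] at he1
      exact absurd he1 zero_ne_one
    · have h1 := h.1
      rw [hf] at h1
      have hnot : ¬ PC (gr (Function.update ω s(v, w) true)) U k := by
        intro hPC
        have h2 : Ph l (gr (Function.update ω s(v, w) true)) ≤ l * k + U.card :=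
          Nat.sInf_le ⟨U, k, hPC, rfl⟩
        omega
      have hex : ∃ x y, x ∉ U ∧ y ∉ U ∧ (gr (Function.update ω s(v, w) true)).Adj x y ∧
          c x = c y := by
        by_contra hcon
        apply hnot
        refine ⟨c, hc1, fun u v hu hv huv heq => hcon ⟨u, v, hu, hv, huv, heq⟩⟩
      obtain ⟨x, y, hx, hy, hxy, heq⟩ := hex
      rcases gr_adj s(v, w) ω x y hxy with h4 | h4
      · rw [hf] at h4
        exact absurd heq (hc2 x y hx hy h4)
      · rcases Sym2.eq_iff.1 h4 with ⟨h5, h6⟩ | ⟨h5, h6⟩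
        · rw [h5] at hx heq
          rw [h6] at hy heq
          exact ⟨hx, hy, heq⟩
        · rw [h5] at hx heq
          rw [h6] at hy heq
          exact ⟨hy, hx, heq.symm⟩
  have hcard : E.card ≤ a := by
    apply ha
    intro x hx y hy hxy
    obtain ⟨hx1, -, hx3⟩ := hkey x hx
    obtain ⟨hy1, -, hy3⟩ := hkey y hy
    by_contra hne'
    rw [Bool.not_eq_false] at hne'
    exact hc2 x y hx1 hy1 ⟨hxy, hne'⟩ (hx3.trans hy3.symm)
  have hsum : ∑ v : V, (if ω s(v, w) = false then DD (PH l) s(v, w) ω else 0) = E.card := by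
    rw [hE, Finset.card_filter]
    push_cast
    refine Finset.sum_congr rfl fun v _ => ?_
    by_cases h : ω s(v, w) = false
    · rcases dd_cases hPHB l s(v, w) ω with h' | h'
      · simp [h, h'.2]
      · simp [h, h'.2]
    · simp [h]
  rw [hsum]
  exact_mod_cast hcard

end Pool.Agent.Helper40.VX
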